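import Mathlib

open Filter Topology Set TopologicalSpace
open scoped Manifold ContDiff Gradient

namespace Pool.Agent.Results.MP_025584_ag.BifurcationDisproof

section Fibrations

variable {V H F : Type} [NormedAddCommGroup V] [NormedSpace ℝ V] [NormedAddCommGroup H]
  [NormedSpace ℝ H] [TopologicalSpace F] [ChartedSpace H F]

/-- The map `Φ : O → U × F` is of class `C^∞`. Here `O ⊆ V` and `U ⊆ ℝ` are open and `F` is a
manifold modelled on `H`. -/
def SmoothToProd (U : Opens ℝ) (O : Opens V) (Φ : O → U × F) : Prop :=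
  ContMDiff 𝓘(ℝ, V) ((𝓘(ℝ, ℝ)).prod 𝓘(ℝ, H)) ∞ Φ

/-- The map `Ψ : U × F → O` is of class `C^∞`. Here `O ⊆ V` and `U ⊆ ℝ` are open and `F` is a
manifold modelled on `H`. -/
def SmoothFromProd (U : Opens ℝ) (O : Opens V) (Ψ : U × F → O) : Prop :=
  ContMDiff ((𝓘(ℝ, ℝ)).prod 𝓘(ℝ, H)) 𝓘(ℝ, V) ∞ Ψ

/-- `Φ : O → U × F` is a `C^∞` diffeomorphism with inverse `Ψ`, and its first component
is `f`. -/
def IsTrivialisation (f : V → ℝ) (U : Opens ℝ) (O : Opens V) (Φ : O → U × F)
    (Ψ : U × F → O) : Prop :=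
  SmoothToProd (H := H) U O Φ ∧ SmoothFromProd (H := H) U O Ψ ∧
    Function.LeftInverse Ψ Φ ∧ Function.RightInverse Ψ Φ ∧ ∀ x : O, ((Φ x).1 : ℝ) = f x

end Fibrations

section Values

variable {V : Type} [NormedAddCommGroup V] [NormedSpace ℝ V]

/-- The open set `O` is `C^∞` diffeomorphic over `U` (via `f`) to a product `U × F`, for some
finite-dimensional smooth manifold `F` (possibly empty). -/
def TrivialisableOver (f : V → ℝ) (U : Opens ℝ) (O : Opens V) : Prop :=
  ∃ (H : Type) (_ : NormedAddCommGroup H) (_ : NormedSpace ℝ H) (_ : FiniteDimensional ℝ H)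
    (F : Type) (_ : TopologicalSpace F) (_ : ChartedSpace H F) (_ : IsManifold 𝓘(ℝ, H) ∞ F)
    (Φ : O → U × F) (Ψ : U × F → O), IsTrivialisation (H := H) f U O Φ Ψ

/-- `f : W → D` is a locally trivial `C^∞` fibration: `f` maps `W` into `D`, and every `t ∈ D`
has an open neighbourhood `U ⊆ D` for which `W ∩ f⁻¹(U)` is open and is `C^∞` diffeomorphic
over `U` to a product `U × F` with a smooth manifold `F`. -/
def IsLocTrivFib (f : V → ℝ) (W : Set V) (D : Set ℝ) : Prop :=
  MapsTo f W D ∧ ∀ t ∈ D, ∃ (U : Opens ℝ) (O : Opens V),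
    t ∈ U ∧ (U : Set ℝ) ⊆ D ∧ (O : Set V) = W ∩ f ⁻¹' (U : Set ℝ) ∧ TrivialisableOver f U O

/-- `f` is topologically trivial at infinity at `t₀`: for some compact `K` and some open interval
`D` centred at `t₀`, the restriction `f : f⁻¹(D) \ K → D` is a locally trivial
`C^∞` fibration. -/
def TopTrivialAtInfinity (f : V → ℝ) (t₀ : ℝ) : Prop :=
  ∃ K : Set V, IsCompact K ∧ ∃ δ : ℝ, 0 < δ ∧
    IsLocTrivFib f (f ⁻¹' (Ioo (t₀ - δ) (t₀ + δ)) \ K) (Ioo (t₀ - δ) (t₀ + δ))

/-- The set `B_∞(f)` of bifurcation values at infinity of `f`. -/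
def bifValuesInfinity (f : V → ℝ) : Set ℝ := {t | ¬ TopTrivialAtInfinity f t}

end Values

section Milnor

variable {V : Type} [NormedAddCommGroup V] [InnerProductSpace ℝ V] [CompleteSpace V]

/-- The Milnor set `M_a(f)`: the points `x` where `grad f(x)` and `x - a` are
linearly dependent. -/
def milnorSet (f : V → ℝ) (a : V) : Set V :=
  {x | ¬ LinearIndependent ℝ ![gradient f x, x - a]}

/-- The set `S_a(f)` of asymptotic `ρ_a`-nonregular values of `f`. -/
def rhoNonregular (f : V → ℝ) (a : V) : Set ℝ :=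
  {t | ∃ x : ℕ → V, (∀ j, x j ∈ milnorSet f a) ∧
    Tendsto (fun j => ‖x j‖) atTop atTop ∧ Tendsto (fun j => f (x j)) atTop (𝓝 t)}

/-- The set `S_∞(f)`, the intersection of all `S_a(f)`. -/
def rhoNonregularInfinity (f : V → ℝ) : Set ℝ := ⋂ a : V, rhoNonregular f a

end Milnor

/-- Euclidean space `ℝⁿ`. -/
abbrev E (n : ℕ) : Type := EuclideanSpace ℝ (Fin n)

/-- The polynomial function `ℝⁿ → ℝ` of a polynomial in `n` variables. -/
noncomputable def polyFun {n : ℕ} (p : MvPolynomial (Fin n) ℝ) : E n → ℝ :=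
  fun x => MvPolynomial.eval (fun i => x i) p

/-! ### Trivial cases of triviality at infinity -/

lemma isLocTrivFib_empty {n : ℕ} (f : E n → ℝ) (D : Set ℝ) (hD : IsOpen D) :
    IsLocTrivFib f (∅ : Set (E n)) D := by
  refine ⟨fun x hx => hx.elim, fun t ht => ⟨⟨D, hD⟩, ⊥, ht, le_rfl, by simp, ?_⟩⟩
  let _ : ChartedSpace ℝ Empty := ChartedSpace.empty _ _
  have hm : IsManifold 𝓘(ℝ, ℝ) ∞ Empty := by
    refine isManifold_of_contDiffOn _ _ _ ?_
    intro e e' he
    exact he.elim
  refine ⟨ℝ, inferInstance, inferInstance, inferInstance, Empty, inferInstance, inferInstance,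
    hm, fun x => x.2.elim, fun x => x.2.elim, fun x => x.2.elim, fun x => x.2.elim,
    fun x => x.2.elim, fun x => x.2.elim, fun x => x.2.elim⟩

/-! ### The counterexample in dimension `m + 2` -/

/-- The quadratic polynomial `w² + 5w + 7`, positive on `ℝ`. -/
noncomputable def q (w : ℝ) : ℝ := w ^ 2 + 5 * w + 7

lemma q_pos (w : ℝ) : 0 < q w := by
  unfold q
  nlinarith [sq_nonneg (w + 5 / 2)]

lemma contDiff_q : ContDiff ℝ ∞ q := by
  unfold q
  fun_prop

/-- The polynomial `y (x² y² + 5 x y + 7)` with `x = X₀`, `y = X₁`. -/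
noncomputable def cex (m : ℕ) : MvPolynomial (Fin (m + 2)) ℝ :=
  MvPolynomial.X 1 * (MvPolynomial.X 0 ^ 2 * MvPolynomial.X 1 ^ 2
    + 5 * MvPolynomial.X 0 * MvPolynomial.X 1 + 7)

lemma polyFun_cex (m : ℕ) (x : E (m + 2)) : polyFun (cex m) x = x 1 * q (x 0 * x 1) := by
  simp only [polyFun, cex, q, map_mul, map_add, map_pow, MvPolynomial.eval_X, map_ofNat]
  ring

lemma contDiff_polyFun_cex (m : ℕ) : ContDiff ℝ ∞ (polyFun (cex m)) := by
  have h : polyFun (cex m) = fun x : E (m + 2) => x 1 * q (x 0 * x 1) := funext (polyFun_cex m)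
  rw [h]
  have h0 : ContDiff ℝ ∞ (fun x : E (m + 2) => x 0) := contDiff_euclidean.1 contDiff_id 0
  have h1 : ContDiff ℝ ∞ (fun x : E (m + 2) => x 1) := contDiff_euclidean.1 contDiff_id 1
  exact h1.mul (contDiff_q.comp (h0.mul h1))

/-- The fibre coordinate: `(x, y, z) ↦ (x / q(xy), z)`. -/
noncomputable def gmap (m : ℕ) (x : E (m + 2)) : E (m + 1) :=
  WithLp.toLp 2 (Fin.cons (x 0 / q (x 0 * x 1)) (fun i : Fin m => x i.succ.succ))

/-- The inverse of the trivialisation. -/
noncomputable def hmap (m : ℕ) (t : ℝ) (z : E (m + 1)) : E (m + 2) :=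
  WithLp.toLp 2 (Fin.cons (z 0 * q (t * z 0))
    (Fin.cons (t / q (t * z 0)) (fun i : Fin m => z i.succ)))

lemma contDiff_gmap (m : ℕ) : ContDiff ℝ ∞ (gmap m) := by
  rw [contDiff_euclidean]
  have h0 : ContDiff ℝ ∞ (fun x : E (m + 2) => x 0) := contDiff_euclidean.1 contDiff_id 0
  have h1 : ContDiff ℝ ∞ (fun x : E (m + 2) => x 1) := contDiff_euclidean.1 contDiff_id 1
  intro i
  refine Fin.cases ?_ (fun j => ?_) i
  · have : (fun x : E (m + 2) => gmap m x 0) = fun x => x 0 / q (x 0 * x 1) := by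
      funext x; simp [gmap]
    rw [this]
    exact h0.div (contDiff_q.comp (h0.mul h1)) (fun x => (q_pos _).ne')
  · have : (fun x : E (m + 2) => gmap m x j.succ) = fun x => x j.succ.succ := by
      funext x; simp [gmap]
    rw [this]
    exact contDiff_euclidean.1 contDiff_id _

lemma contDiff_hmap (m : ℕ) : ContDiff ℝ ∞ (fun u : ℝ × E (m + 1) => hmap m u.1 u.2) := by
  rw [contDiff_euclidean]
  have ht : ContDiff ℝ ∞ (fun u : ℝ × E (m + 1) => u.1) := contDiff_fst
  have hz : ∀ i, ContDiff ℝ ∞ (fun u : ℝ × E (m + 1) => u.2 i) := fun i =>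
    (contDiff_euclidean.1 contDiff_id i).comp contDiff_snd
  intro i
  refine Fin.cases ?_ (fun j => Fin.cases ?_ (fun k => ?_) j) i
  · have : (fun u : ℝ × E (m + 1) => hmap m u.1 u.2 0) = fun u => u.2 0 * q (u.1 * u.2 0) := by
      funext u; simp [hmap]
    rw [this]
    exact (hz 0).mul (contDiff_q.comp (ht.mul (hz 0)))
  · have : (fun u : ℝ × E (m + 1) => hmap m u.1 u.2 (Fin.succ 0))
        = fun u => u.1 / q (u.1 * u.2 0) := by
      funext u; simp [hmap]
    rw [this]
    exact ht.div (contDiff_q.comp (ht.mul (hz 0))) (fun x => (q_pos _).ne')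
  · have : (fun u : ℝ × E (m + 1) => hmap m u.1 u.2 k.succ.succ) = fun u => u.2 k.succ := by
      funext u; simp [hmap]
    rw [this]
    exact hz _

lemma hmap_gmap (m : ℕ) (x : E (m + 2)) : hmap m (polyFun (cex m) x) (gmap m x) = x := by
  have hq := (q_pos (x 0 * x 1)).ne'
  have e1 : polyFun (cex m) x * gmap m x 0 = x 0 * x 1 := by
    rw [polyFun_cex]; simp only [gmap, Fin.cons_zero]
    generalize q (x 0 * x 1) = c at hq
    field_simp
  ext i
  refine Fin.cases ?_ (fun j => Fin.cases ?_ (fun k => ?_) j) i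
  · have : hmap m (polyFun (cex m) x) (gmap m x) 0
        = gmap m x 0 * q (polyFun (cex m) x * gmap m x 0) := by simp [hmap]
    rw [this, e1]; simp only [gmap, Fin.cons_zero]
    generalize q (x 0 * x 1) = c at hq
    field_simp
  · have : hmap m (polyFun (cex m) x) (gmap m x) (Fin.succ 0)
        = polyFun (cex m) x / q (polyFun (cex m) x * gmap m x 0) := by simp [hmap]
    rw [this, e1, polyFun_cex]
    generalize q (x 0 * x 1) = c at hq
    rw [mul_div_assoc, div_self hq, mul_one]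
    rfl
  · simp [hmap, gmap]

lemma polyFun_hmap (m : ℕ) (t : ℝ) (z : E (m + 1)) : polyFun (cex m) (hmap m t z) = t := by
  have hq := (q_pos (t * z 0)).ne'
  have e0 : hmap m t z 0 = z 0 * q (t * z 0) := by simp [hmap]
  have e1 : hmap m t z 1 = t / q (t * z 0) := by
    have : hmap m t z 1 = hmap m t z (Fin.succ 0) := rfl
    rw [this]; simp [hmap]
  rw [polyFun_cex, e0, e1]
  have : z 0 * q (t * z 0) * (t / q (t * z 0)) = t * z 0 := by
    generalize q (t * z 0) = c at hq
    field_simp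
  rw [this, div_mul_cancel₀ _ hq]

lemma gmap_hmap (m : ℕ) (t : ℝ) (z : E (m + 1)) : gmap m (hmap m t z) = z := by
  have hq := (q_pos (t * z 0)).ne'
  have e0 : hmap m t z 0 = z 0 * q (t * z 0) := by simp [hmap]
  have e1 : hmap m t z 1 = t / q (t * z 0) := by
    have : hmap m t z 1 = hmap m t z (Fin.succ 0) := rfl
    rw [this]; simp [hmap]
  ext i
  refine Fin.cases ?_ (fun j => ?_) i
  · have : gmap m (hmap m t z) 0 = hmap m t z 0 / q (hmap m t z 0 * hmap m t z 1) := by
      simp [gmap]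
    rw [this, e0, e1]
    have : z 0 * q (t * z 0) * (t / q (t * z 0)) = t * z 0 := by
      generalize q (t * z 0) = c at hq
      field_simp
    rw [this, mul_div_assoc, div_self hq, mul_one]
  · simp [hmap, gmap]

/-- The polynomial function is a globally trivial fibration; in particular it is topologically
trivial at infinity at every value. -/
lemma topTrivial_cex (m : ℕ) (t₀ : ℝ) : TopTrivialAtInfinity (polyFun (cex m)) t₀ := by
  refine ⟨∅, isCompact_empty, 1, one_pos, ?_⟩
  set D : Opens ℝ := ⟨Ioo (t₀ - 1) (t₀ + 1), isOpen_Ioo⟩ with hD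
  refine ⟨fun x hx => hx.1, fun t ht => ?_⟩
  let V : Opens (E (m + 2)) := ⟨polyFun (cex m) ⁻¹' (D : Set ℝ),
    D.isOpen.preimage (contDiff_polyFun_cex m).continuous⟩
  refine ⟨D, V, ht, le_rfl, by simp [V, hD], E (m + 1), inferInstance, inferInstance,
    inferInstance, E (m + 1), inferInstance, inferInstance, inferInstance,
    fun x => (⟨polyFun (cex m) x, x.2⟩, gmap m x),
    fun u => ⟨hmap m u.1 u.2, by
      show polyFun (cex m) (hmap m u.1 u.2) ∈ (D : Set ℝ)
      rw [polyFun_hmap]; exact u.1.2⟩, ?_, ?_, ?_, ?_, fun x => rfl⟩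
  · refine ContMDiff.prodMk ?_ ?_
    · rw [← ContMDiff.subtypeVal_comp_iff]
      exact (contDiff_polyFun_cex m).contMDiff.comp contMDiff_subtype_val
    · exact (contDiff_gmap m).contMDiff.comp contMDiff_subtype_val
  · unfold SmoothFromProd
    rw [← ContMDiff.subtypeVal_comp_iff]
    have h1 : ContMDiff ((𝓘(ℝ, ℝ)).prod (𝓡 (m + 1))) (𝓡 (m + 2)) ∞
        (fun u : ℝ × E (m + 1) => hmap m u.1 u.2) := by
      rw [contMDiff_iff]
      refine ⟨(contDiff_hmap m).continuous, fun x y => ?_⟩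
      exact (contDiff_hmap m).contDiffOn
    refine h1.comp (f := fun u : D × E (m + 1) => ((u.1 : ℝ), u.2)) ?_
    exact (contMDiff_subtype_val.comp contMDiff_fst).prodMk contMDiff_snd
  · intro x
    apply Subtype.ext
    exact hmap_gmap m x
  · intro u
    refine Prod.ext (Subtype.ext ?_) ?_
    · exact polyFun_hmap m _ _
    · exact gmap_hmap m _ _

/-! ### Zero is a `ρ_a`-nonregular value for every centre -/

/-- The point `(x, y, a₂, …, a_{m+1})`. -/
noncomputable def pt (m : ℕ) (a : E (m + 2)) (x y : ℝ) : E (m + 2) :=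
  WithLp.toLp 2 (Fin.cons x (Fin.cons y (fun i : Fin m => a i.succ.succ)))

lemma pt_zero (m : ℕ) (a : E (m + 2)) (x y : ℝ) : pt m a x y 0 = x := by simp [pt]

lemma pt_one (m : ℕ) (a : E (m + 2)) (x y : ℝ) : pt m a x y 1 = y := by
  have : pt m a x y 1 = pt m a x y (Fin.succ 0) := rfl
  rw [this]; simp [pt]

lemma pt_succ (m : ℕ) (a : E (m + 2)) (x y : ℝ) (i : Fin m) :
    pt m a x y i.succ.succ = a i.succ.succ := by simp [pt]

lemma hasFDerivAt_coord (m : ℕ) (i : Fin (m + 2)) (x : E (m + 2)) :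
    HasFDerivAt (fun x : E (m + 2) => x i) (EuclideanSpace.proj i : E (m + 2) →L[ℝ] ℝ) x :=
  (EuclideanSpace.proj (𝕜 := ℝ) i).hasFDerivAt

lemma fderiv_cex (m : ℕ) (x z : E (m + 2)) :
    fderiv ℝ (polyFun (cex m)) x z
      = (x 1 ^ 2 * (2 * (x 0 * x 1) + 5)) * z 0
        + ((3 * (x 0 * x 1) + 7) * (x 0 * x 1 + 1)) * z 1 := by
  have h : polyFun (cex m) = fun x : E (m + 2) =>
      x 1 * ((x 0 * x 1) ^ 2 + 5 * (x 0 * x 1) + 7) := by
    funext x; rw [polyFun_cex]; rfl
  have h0 := hasFDerivAt_coord m 0 x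
  have h1 := hasFDerivAt_coord m 1 x
  have hw := h0.mul h1
  have hq := ((hw.pow 2).add (hw.const_mul 5)).add_const 7
  have hf := h1.mul hq
  have hf' : fderiv ℝ (fun x : E (m + 2) =>
      x 1 * ((x 0 * x 1) ^ 2 + 5 * (x 0 * x 1) + 7)) x = _ := hf.fderiv
  rw [h, hf']
  simp
  ring

/-- A criterion for membership in the Milnor set of the counterexample. -/
lemma mem_milnorSet (m : ℕ) (a : E (m + 2)) (x y : ℝ) (hx : x - a 0 ≠ 0)
    (h : y ^ 2 * (2 * (x * y) + 5) * (y - a 1)
      = (3 * (x * y) + 7) * (x * y + 1) * (x - a 0)) :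
    pt m a x y ∈ milnorSet (polyFun (cex m)) a := by
  intro hli
  rw [LinearIndependent.pair_iff] at hli
  have key : (x - a 0) • gradient (polyFun (cex m)) (pt m a x y)
      + (-(y ^ 2 * (2 * (x * y) + 5))) • (pt m a x y - a) = 0 := by
    refine ext_inner_right ℝ (fun z => ?_)
    rw [inner_add_left, inner_smul_left, inner_smul_left, inner_zero_left, gradient,
      InnerProductSpace.toDual_symm_apply, fderiv_cex, PiLp.inner_apply, Fin.sum_univ_succ,
      Fin.sum_univ_succ]
    have hrest : ∀ i : Fin m, inner ℝ ((pt m a x y - a) i.succ.succ) (z i.succ.succ) = 0 := by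
      intro i
      simp [pt_succ]
    simp only [hrest, Finset.sum_const_zero, pt_zero, pt_one]
    have e0 : (pt m a x y - a) 0 = x - a 0 := by simp [pt_zero]
    have e1 : (pt m a x y - a) (Fin.succ 0) = y - a 1 := by
      have : (pt m a x y - a) (Fin.succ 0) = (pt m a x y - a) 1 := rfl
      rw [this]; simp [pt_one]
    rw [e0, e1]
    have hz : z (Fin.succ 0) = z 1 := rfl
    rw [hz]
    simp only [conj_trivial, RCLike.inner_apply]
    linear_combination (-(z 1)) * h
  exact hx (hli _ _ key).1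

/-- For small `y > 0` there is `w ∈ [-3/2, -1/2]` such that the point `(w / y, y)` satisfies the
Milnor equation. -/
lemma exists_w (a0 a1 : ℝ) : ∀ᶠ y in 𝓝[>] (0 : ℝ), ∃ w ∈ Icc (-3 / 2 : ℝ) (-1 / 2),
    y ^ 3 * (2 * w + 5) * (y - a1) = (3 * w + 7) * (w + 1) * (w - a0 * y) := by
  let h : ℝ → ℝ → ℝ := fun w y =>
    y ^ 3 * (2 * w + 5) * (y - a1) - (3 * w + 7) * (w + 1) * (w - a0 * y)
  have c1 : Tendsto (h (-3 / 2)) (𝓝 0) (𝓝 (h (-3 / 2) 0)) := by
    have : Continuous (h (-3 / 2)) := by fun_prop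
    exact this.tendsto 0
  have c2 : Tendsto (h (-1 / 2)) (𝓝 0) (𝓝 (h (-1 / 2) 0)) := by
    have : Continuous (h (-1 / 2)) := by fun_prop
    exact this.tendsto 0
  have v1 : h (-3 / 2) 0 < 0 := by simp only [h]; norm_num
  have v2 : 0 < h (-1 / 2) 0 := by simp only [h]; norm_num
  have e1 : ∀ᶠ y in 𝓝[>] (0 : ℝ), h (-3 / 2) y < 0 :=
    nhdsWithin_le_nhds (c1.eventually (gt_mem_nhds v1))
  have e2 : ∀ᶠ y in 𝓝[>] (0 : ℝ), 0 < h (-1 / 2) y :=
    nhdsWithin_le_nhds (c2.eventually (lt_mem_nhds v2))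
  filter_upwards [e1, e2] with y h1 h2
  have hc : ContinuousOn (fun w => h w y) (Icc (-3 / 2 : ℝ) (-1 / 2)) := by
    have : Continuous (fun w => h w y) := by fun_prop
    exact this.continuousOn
  obtain ⟨w, hw, hw0⟩ := intermediate_value_Icc (by norm_num) hc
    (⟨h1.le, h2.le⟩ : (0 : ℝ) ∈ Icc (h (-3 / 2) y) (h (-1 / 2) y))
  exact ⟨w, hw, sub_eq_zero.1 hw0⟩

lemma zero_mem_rhoNonregular (m : ℕ) (a : E (m + 2)) :
    (0 : ℝ) ∈ rhoNonregular (polyFun (cex m)) a := by
  -- for small `y > 0` there is a good point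
  have hsmall : ∀ᶠ y in 𝓝[>] (0 : ℝ), y * (2 * (|a 0| + 1)) < 1 := by
    have : Tendsto (fun y : ℝ => y * (2 * (|a 0| + 1))) (𝓝 0) (𝓝 (0 * (2 * (|a 0| + 1)))) := by
      have : Continuous (fun y : ℝ => y * (2 * (|a 0| + 1))) := by fun_prop
      exact this.tendsto 0
    rw [zero_mul] at this
    exact nhdsWithin_le_nhds (this.eventually (gt_mem_nhds one_pos))
  have hgood : ∀ᶠ y in 𝓝[>] (0 : ℝ), ∃ x : ℝ, pt m a x y ∈ milnorSet (polyFun (cex m)) a ∧
      1 / (2 * y) ≤ |x| ∧ x * y ∈ Icc (-3 / 2 : ℝ) (-1 / 2) := by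
    filter_upwards [exists_w (a 0) (a 1), hsmall, self_mem_nhdsWithin] with y hy hy2 hy0
    have hy0 : 0 < y := hy0
    obtain ⟨w, hw, he⟩ := hy
    have hxy : w / y * y = w := by field_simp
    have habs : 1 / (2 * y) ≤ |w / y| := by
      rw [abs_div, abs_of_pos hy0, abs_of_neg (by linarith [hw.2])]
      rw [div_le_div_iff₀ (by positivity) hy0]
      nlinarith [hw.2]
    refine ⟨w / y, ?_, habs, by rw [hxy]; exact hw⟩
    apply mem_milnorSet
    · intro h0
      have h1 : |w / y| ≤ |a 0| := by rw [sub_eq_zero.1 h0]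
      have h2 : 1 / (2 * y) ≤ |a 0| := habs.trans h1
      rw [div_le_iff₀ (by positivity)] at h2
      nlinarith [abs_nonneg (a 0)]
    · rw [hxy]
      have : y ≠ 0 := hy0.ne'
      field_simp
      linear_combination he
  -- a sequence tending to zero from the right
  have hseq : Tendsto (fun j : ℕ => 1 / ((j : ℝ) + 1)) atTop (𝓝[>] (0 : ℝ)) := by
    rw [tendsto_nhdsWithin_iff]
    refine ⟨tendsto_one_div_add_atTop_nhds_zero_nat, Eventually.of_forall (fun j => ?_)⟩
    show (0 : ℝ) < 1 / ((j : ℝ) + 1)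
    positivity
  obtain ⟨N, hN⟩ := eventually_atTop.1 (hseq.eventually hgood)
  have hN' : ∀ j : ℕ, ∃ x : ℝ,
      pt m a x (1 / (((j + N : ℕ) : ℝ) + 1)) ∈ milnorSet (polyFun (cex m)) a ∧
      1 / (2 * (1 / (((j + N : ℕ) : ℝ) + 1))) ≤ |x| ∧
      x * (1 / (((j + N : ℕ) : ℝ) + 1)) ∈ Icc (-3 / 2 : ℝ) (-1 / 2) :=
    fun j => hN (j + N) (Nat.le_add_left _ _)
  choose x hx1 hx2 hx3 using hN'
  have hy : Tendsto (fun j : ℕ => 1 / (((j + N : ℕ) : ℝ) + 1)) atTop (𝓝 (0 : ℝ)) :=
    (tendsto_nhdsWithin_iff.1 hseq).1.comp (tendsto_add_atTop_nat N)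
  refine ⟨fun j => pt m a (x j) (1 / (((j + N : ℕ) : ℝ) + 1)), hx1, ?_, ?_⟩
  · have hle : ∀ j : ℕ, (1 / 2) * (j : ℝ) ≤
        ‖pt m a (x j) (1 / (((j + N : ℕ) : ℝ) + 1))‖ := by
      intro j
      have h1 : |x j| ≤ ‖pt m a (x j) (1 / (((j + N : ℕ) : ℝ) + 1))‖ := by
        have := PiLp.norm_apply_le (pt m a (x j) (1 / (((j + N : ℕ) : ℝ) + 1))) 0
        rwa [pt_zero, Real.norm_eq_abs] at this
      refine le_trans ?_ ((hx2 j).trans h1)
      have : (1 : ℝ) / (2 * (1 / (((j + N : ℕ) : ℝ) + 1))) = (((j + N : ℕ) : ℝ) + 1) / 2 := by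
        field_simp
      rw [this]
      push_cast
      have : (0 : ℝ) ≤ N := Nat.cast_nonneg N
      linarith
    refine tendsto_atTop_mono hle ?_
    exact Tendsto.const_mul_atTop (by norm_num) tendsto_natCast_atTop_atTop
  · have hb : ∀ j : ℕ, |polyFun (cex m) (pt m a (x j) (1 / (((j + N : ℕ) : ℝ) + 1)))|
        ≤ 20 * (1 / (((j + N : ℕ) : ℝ) + 1)) := by
      intro j
      rw [polyFun_cex, pt_zero, pt_one]
      have hp : (0 : ℝ) < 1 / (((j + N : ℕ) : ℝ) + 1) := by positivity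
      have hqp := q_pos (x j * (1 / (((j + N : ℕ) : ℝ) + 1)))
      rw [abs_of_pos (mul_pos hp hqp), mul_comm (20 : ℝ)]
      refine mul_le_mul_of_nonneg_left ?_ hp.le
      have h3 := hx3 j
      unfold q
      generalize x j * (1 / (((j + N : ℕ) : ℝ) + 1)) = w at h3
      nlinarith [h3.1, h3.2]
    have h0 : Tendsto (fun j : ℕ => 20 * (1 / (((j + N : ℕ) : ℝ) + 1))) atTop (𝓝 (0 : ℝ)) := by
      simpa using hy.const_mul 20
    exact squeeze_zero_norm hb h0

/-! ### Dimension one -/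

lemma milnorSet_one (f : E 1 → ℝ) (a : E 1) : milnorSet f a = univ := by
  ext x
  simp only [milnorSet, mem_ofPred_eq, mem_univ, iff_true]
  intro h
  have := h.fintype_card_le_finrank
  simp at this

lemma norm_E_one (x : E 1) : ‖x‖ = |x 0| := by
  rw [EuclideanSpace.norm_eq]
  simp [Real.sqrt_sq_eq_abs]

lemma topTrivial_of_preimage_subset {n : ℕ} (f : E n → ℝ) (t : ℝ) (K : Set (E n))
    (hK : IsCompact K) (δ : ℝ) (hδ : 0 < δ) (h : f ⁻¹' (Ioo (t - δ) (t + δ)) ⊆ K) :
    TopTrivialAtInfinity f t := by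
  refine ⟨K, hK, δ, hδ, ?_⟩
  rw [sdiff_eq_empty.2 h]
  exact isLocTrivFib_empty f _ isOpen_Ioo

lemma not_topTrivial_const {n : ℕ} (hn : 1 ≤ n) (c : ℝ) :
    ¬ TopTrivialAtInfinity (fun _ : E n => c) c := by
  rintro ⟨K, hK, δ, hδ, -, h⟩
  have hc : c ∈ Ioo (c - δ) (c + δ) := ⟨by linarith, by linarith⟩
  obtain ⟨U, V, hcU, -, hV, H, _, _, _, F, _, _, _, Φ, Ψ, -, -, -, hr, hΦ⟩ := h c hc
  have : Nonempty (Fin n) := ⟨⟨0, hn⟩⟩
  have : NoncompactSpace (E n) := by infer_instance
  obtain ⟨x, hx⟩ : ∃ x : E n, x ∉ K := by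
    by_contra hcon
    push Not at hcon
    have : K = univ := eq_univ_of_forall hcon
    exact noncompact_univ (E n) (this ▸ hK)
  have hxV : x ∈ (V : Set (E n)) := by
    rw [hV]
    exact ⟨⟨hc, hx⟩, hcU⟩
  -- a second point of `U`
  obtain ⟨ε, hε, hU⟩ := Metric.isOpen_iff.1 U.isOpen c hcU
  have hs : c + ε / 2 ∈ (U : Set ℝ) := by
    apply hU
    rw [Metric.mem_ball, Real.dist_eq]
    simp only [add_sub_cancel_left]
    rw [abs_of_pos (by positivity)]
    linarith
  have h1 := hΦ (Ψ (⟨c + ε / 2, hs⟩, (Φ ⟨x, hxV⟩).2))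
  rw [hr] at h1
  have h1' : c + ε / 2 = c := h1
  linarith

lemma eq_one_dim (p : MvPolynomial (Fin 1) ℝ) :
    bifValuesInfinity (polyFun p) = rhoNonregularInfinity (polyFun p) := by
  -- pass to a univariate polynomial
  set P : Polynomial ℝ := MvPolynomial.aeval (fun _ => Polynomial.X) p with hP
  have hPe : ∀ x : E 1, polyFun p x = P.eval (x 0) := by
    intro x
    have h1 : P.eval (x 0) = (Polynomial.aeval (x 0)) P := by
      rw [Polynomial.coe_aeval_eq_eval]
    rw [h1, hP, ← AlgHom.comp_apply, MvPolynomial.comp_aeval]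
    simp only [Polynomial.aeval_X, polyFun]
    have h2 : (fun i => x i) = fun _ : Fin 1 => x 0 := by
      funext i
      rw [Subsingleton.elim i 0]
    rw [h2, ← MvPolynomial.coe_aeval_eq_eval]
    rfl
  by_cases hdeg : 0 < P.degree
  · -- nonconstant: both sets are empty
    have h1 : bifValuesInfinity (polyFun p) = ∅ := by
      refine eq_empty_of_forall_notMem (fun t ht => ht ?_)
      have hlim : Tendsto (fun x : E 1 => ‖P.eval (x 0)‖) (cocompact (E 1)) atTop := by
        refine P.tendsto_norm_atTop hdeg ?_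
        have : (fun x : E 1 => ‖x 0‖) = fun x : E 1 => ‖x‖ := by
          funext x; rw [norm_E_one, Real.norm_eq_abs]
        rw [this]
        exact tendsto_norm_cocompact_atTop
      have hev := hlim.eventually (eventually_gt_atTop (|t| + 1))
      obtain ⟨K, hK, hKs⟩ := mem_cocompact.1 hev
      refine topTrivial_of_preimage_subset _ t K hK 1 one_pos (fun x hx => ?_)
      by_contra hxK
      have h2 : |t| + 1 < ‖P.eval (x 0)‖ := hKs hxK
      rw [← hPe, Real.norm_eq_abs] at h2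
      have h3 : |polyFun p x - t| < 1 := by
        rw [abs_lt]
        exact ⟨by linarith [hx.1], by linarith [hx.2]⟩
      have h4 : |polyFun p x| ≤ |polyFun p x - t| + |t| := by
        have := abs_add_le (polyFun p x - t) t
        simpa using this
      linarith
    have h2 : rhoNonregularInfinity (polyFun p) = ∅ := by
      refine eq_empty_of_forall_notMem (fun t ht => ?_)
      obtain ⟨x, -, hx, hf⟩ := mem_iInter.1 ht 0
      have hlim : Tendsto (fun j => ‖P.eval (x j 0)‖) atTop atTop := by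
        refine P.tendsto_norm_atTop hdeg ?_
        have : (fun j => ‖x j 0‖) = fun j => ‖x j‖ := by
          funext j; rw [norm_E_one, Real.norm_eq_abs]
        rw [this]
        exact hx
      have hlim2 : Tendsto (fun j => ‖P.eval (x j 0)‖) atTop (𝓝 ‖t‖) := by
        have := hf.norm
        simpa only [hPe] using this
      exact not_tendsto_nhds_of_tendsto_atTop hlim _ hlim2
    rw [h1, h2]
  · -- constant: both sets are the singleton of the constant value
    have hC : P = Polynomial.C (P.coeff 0) := Polynomial.eq_C_of_degree_le_zero (not_lt.1 hdeg)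
    have hconst : polyFun p = fun _ => P.coeff 0 := by
      funext x
      rw [hPe]
      conv_lhs => rw [hC]
      rw [Polynomial.eval_C]
    rw [hconst]
    set c := P.coeff 0
    have h1 : bifValuesInfinity (fun _ : E 1 => c) = {c} := by
      ext t
      simp only [bifValuesInfinity, mem_ofPred_eq, mem_singleton_iff]
      constructor
      · intro ht
        by_contra hne
        apply ht
        refine topTrivial_of_preimage_subset _ t ∅ isCompact_empty |t - c|
          (abs_pos.2 (sub_ne_zero.2 hne)) (fun x hx => ?_)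
        have hx1 : t - |t - c| < c := hx.1
        have hx2 : c < t + |t - c| := hx.2
        rcases abs_cases (t - c) with ⟨h, -⟩ | ⟨h, -⟩ <;> exfalso <;> linarith
      · rintro rfl
        exact not_topTrivial_const le_rfl _
    have h2 : rhoNonregularInfinity (fun _ : E 1 => c) = {c} := by
      ext t
      simp only [rhoNonregularInfinity, mem_iInter, mem_singleton_iff]
      constructor
      · intro ht
        obtain ⟨x, -, -, hf⟩ := ht 0
        exact tendsto_nhds_unique hf tendsto_const_nhds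
      · rintro rfl a
        refine ⟨fun j => WithLp.toLp 2 (fun _ => (j : ℝ)), fun j => ?_, ?_, tendsto_const_nhds⟩
        · rw [milnorSet_one]; trivial
        · have : (fun j : ℕ => ‖(WithLp.toLp 2 (fun _ => (j : ℝ)) : E 1)‖) = fun j : ℕ => (j : ℝ) := by
            funext j
            rw [norm_E_one]
            simp
          rw [this]
          exact tendsto_natCast_atTop_atTop
    rw [h1, h2]

/-- **Answer to Q1.** For `n ≥ 1`, the equality `B_∞(f) = S_∞(f)` holds for all polynomial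
functions `f : ℝⁿ → ℝ` if and only if `n = 1`.  (For `n ≥ 2` the polynomial
`f = y (x² y² + 5 x y + 7)` has `B_∞(f) = ∅`, while `0 ∈ S_a(f)` for every centre `a`.) -/
theorem result : ∀ n : ℕ, 1 ≤ n →
    ((∀ p : MvPolynomial (Fin n) ℝ,
      bifValuesInfinity (polyFun p) = rhoNonregularInfinity (polyFun p)) ↔ n = 1) := by
  intro n hn
  constructor
  · intro h
    by_contra hne
    obtain ⟨m, rfl⟩ : ∃ m, n = m + 2 := ⟨n - 2, by omega⟩
    have h0 : (0 : ℝ) ∈ rhoNonregularInfinity (polyFun (cex m)) :=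
      mem_iInter.2 (fun a => zero_mem_rhoNonregular m a)
    rw [← h (cex m)] at h0
    exact h0 (topTrivial_cex m 0)
  · rintro rfl p
    exact eq_one_dim p

end Pool.Agent.Results.MP_025584_ag.BifurcationDisproof
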